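import Pool.Agent.W601.SQ.Stm

/-!
# SQ-SUBA: first extraction
-/

set_option autoImplicit false

open Filter Topology

namespace Pool.Agent.W565.SQ

open Pool.Agent.W601.SQ

theorem lim_case (u : ℕ → ℤ) (a : EReal)
    (h : Tendsto (fun j => (((u j : ℤ) : ℝ) : EReal)) atTop (𝓝 a)) :
    (∃ c : ℤ, ∀ᶠ j in atTop, u j = c) ∨ Tendsto (fun j => |u j|) atTop atTop := by
  induction a with
  | bot =>
    right
    rw [EReal.tendsto_coe_nhds_bot_iff] at h
    rw [tendsto_atTop]
    intro C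
    filter_upwards [(tendsto_atBot.1 h) (-(C : ℝ))] with j hj
    have h1 : u j ≤ -C := by exact_mod_cast hj
    have h2 := neg_le_abs (u j)
    omega
  | coe r =>
    left
    rw [EReal.tendsto_coe] at h
    have h1 : ∀ᶠ j in atTop, |((u j : ℤ) : ℝ) - r| < 1 / 2 := by
      have h2 := (Metric.tendsto_nhds.1 h) (1 / 2) (by norm_num)
      filter_upwards [h2] with j hj
      rwa [Real.dist_eq] at hj
    obtain ⟨j0, hj0⟩ := h1.exists
    refine ⟨u j0, ?_⟩
    filter_upwards [h1] with j hj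
    rw [abs_lt] at hj hj0
    have h3 : ((u j : ℤ) : ℝ) < ((u j0 + 1 : ℤ) : ℝ) := by
      push_cast
      linarith [hj.1, hj.2, hj0.1, hj0.2]
    have h4 : ((u j0 : ℤ) : ℝ) < ((u j + 1 : ℤ) : ℝ) := by
      push_cast
      linarith [hj.1, hj.2, hj0.1, hj0.2]
    have h5 : u j < u j0 + 1 := by exact_mod_cast h3
    have h6 : u j0 < u j + 1 := by exact_mod_cast h4
    omega
  | top =>
    right
    rw [EReal.tendsto_coe_nhds_top_iff] at h
    rw [tendsto_atTop]
    intro C
    filter_upwards [(tendsto_atTop.1 h) (C : ℝ)] with j hj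
    have h1 : C ≤ u j := by exact_mod_cast hj
    exact h1.trans (le_abs_self _)

theorem suba : S_SUBA := by
  intro s
  have hB : (⋃ j, (((s j).support : Finset ℝ) : Set ℝ)).Countable :=
    Set.countable_iUnion fun j => (s j).support.countable_toSet
  have : Countable (⋃ j, (((s j).support : Finset ℝ) : Set ℝ)) := hB.to_subtype
  obtain ⟨a, φ, hφ, ha⟩ := CompactSpace.tendsto_subseq
    (fun (j : ℕ) (b : (⋃ j, (((s j).support : Finset ℝ) : Set ℝ))) =>
      (((s j b.1 : ℤ) : ℝ) : EReal))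
  refine ⟨φ, hφ, fun β => ?_⟩
  by_cases hβ : β ∈ ⋃ j, (((s j).support : Finset ℝ) : Set ℝ)
  · have h1 := (tendsto_pi_nhds.1 ha) ⟨β, hβ⟩
    exact lim_case (fun j => s (φ j) β) _ h1
  · left
    refine ⟨0, Eventually.of_forall fun j => ?_⟩
    by_contra h0
    apply hβ
    rw [Set.mem_iUnion]
    exact ⟨φ j, by
      rw [Finset.mem_coe, Finsupp.mem_support_iff]
      exact h0⟩

end Pool.Agent.W565.SQ
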